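import Pool.Agent.Helper58.PB.StM
import Pool.Agent.Helper23.GK.StG

/-!
# Project PB, module UNT: the untruncated weights
-/

set_option autoImplicit false

namespace Pool.Agent.Helper98.PB

open Finset ArithmeticFunction
open Pool.Agent.Helper58.PB
open Pool.Agent.Helper48.BK (ex th Sx Apx rr win AdN Admissible Solv Cl thd)
open Pool.Agent.Helper23.GK (cR)
open Pool.Agent.Helper23.MV (PCh PS ZF ZS mwt OKb ta Sc mm)

/-- `m/φ(m) = ∏_{p ∣ m} p/(p-1)` -/
private lemma div_totient_UNT (m : ℕ) (hm : m ≠ 0) :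
    (m : ℝ) / (Nat.totient m : ℝ) = ∏ p ∈ m.primeFactors, (p : ℝ) / (p - 1) := by
  have h := Nat.totient_eq_mul_prod_factors m
  have hR : (Nat.totient m : ℝ) = m * ∏ p ∈ m.primeFactors, (1 - (p : ℝ)⁻¹) := by
    have h2 := congrArg (fun x : ℚ => (x : ℝ)) h
    push_cast at h2
    exact h2
  have hm' : (m : ℝ) ≠ 0 := by exact_mod_cast hm
  rw [hR, div_mul_eq_div_div, div_self hm', one_div, ← Finset.prod_inv_distrib]
  refine Finset.prod_congr rfl fun p hp => ?_
  have hpp := Nat.prime_of_mem_primeFactors hp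
  have hp2 : (2 : ℝ) ≤ p := by exact_mod_cast hpp.two_le
  have h1 : (p : ℝ) - 1 ≠ 0 := by linarith
  have h0 : (p : ℝ) ≠ 0 := by linarith
  rw [show 1 - (p : ℝ)⁻¹ = (p - 1) / p by field_simp, inv_div]

private lemma unt_UNT {Q : ℕ} {n : ℕ} {c : PCh} (hr : c.r ≤ Q)
    (hd : ∀ (q u : ℕ), 1 ≤ q → ∑ r ∈ q.divisors, (moebius r : ℝ) / (Nat.totient r : ℝ) * (cR r u : ℝ) =
    if Nat.Coprime u q then (q : ℝ) / Nat.totient q else 0) :
    wi Q c n = (c.r : ℂ) / (Nat.totient c.r : ℂ) * (starRingEnd ℂ) (c.ev n) *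
    ((∑ s ∈ (Pi0 Q).divisors.filter (fun s => Nat.Coprime s c.r),
      (moebius s : ℝ) / (Nat.totient s : ℝ) * ((cR s n : ℤ) : ℝ) : ℝ) : ℂ) := by
  classical
  set S : Finset ℕ := (range (Q + 1)).filter Nat.Prime with hS
  have hSp : ∀ p ∈ S, p.Prime := fun p hp => (mem_filter.1 hp).2
  set A : Finset ℕ := S.filter (fun p => ¬ p ∣ c.r) with hA
  set B : Finset ℕ := S.filter (fun p => p ∣ c.r) with hB
  set N : ℕ := ∏ p ∈ A, p with hN
  set R : ℕ := ∏ p ∈ B, p with hR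
  have hPi : Pi0 Q = R * N := by
    rw [hR, hN, hA, hB, Finset.prod_filter_mul_prod_filter_not]
    rfl
  have hAp : ∀ p ∈ A, p.Prime := fun p hp => hSp p (mem_filter.1 hp).1
  have hBp : ∀ p ∈ B, p.Prime := fun p hp => hSp p (mem_filter.1 hp).1
  have hN0 : N ≠ 0 := Finset.prod_ne_zero_iff.2 fun p hp => (hAp p hp).ne_zero
  have hR0 : R ≠ 0 := Finset.prod_ne_zero_iff.2 fun p hp => (hBp p hp).ne_zero
  have hNr : Nat.Coprime N c.r := by
    refine Nat.Coprime.prod_left fun p hp => ?_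
    exact (Nat.Prime.coprime_iff_not_dvd (hAp p hp)).2 (mem_filter.1 hp).2
  have hRr : R ∣ c.r := by
    refine Finset.prod_primes_dvd _ (fun p hp => (hBp p hp).prime) fun p hp => (mem_filter.1 hp).2
  have hBf : c.r.primeFactors = B := by
    ext p
    rw [Nat.mem_primeFactors, hB, mem_filter, hS, mem_filter, mem_range]
    constructor
    · rintro ⟨h1, h2, h3⟩
      exact ⟨⟨Nat.lt_succ_of_le ((Nat.le_of_dvd (Nat.pos_of_ne_zero h3) h2).trans hr), h1⟩, h2⟩
    · rintro ⟨⟨_, h1⟩, h2⟩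
      exact ⟨h1, h2, c.hr⟩
  have hfil : (Pi0 Q).divisors.filter (fun s => Nat.Coprime s c.r) = N.divisors := by
    ext s
    rw [mem_filter, Nat.mem_divisors, Nat.mem_divisors, hPi]
    constructor
    · rintro ⟨⟨h1, _⟩, h2⟩
      exact ⟨(Nat.Coprime.coprime_dvd_right hRr h2).dvd_of_dvd_mul_left h1, hN0⟩
    · rintro ⟨h1, _⟩
      exact ⟨⟨h1.trans (dvd_mul_left _ _), mul_ne_zero hR0 hN0⟩,
        Nat.Coprime.coprime_dvd_left h1 hNr⟩
  rw [hfil, hd N n (Nat.one_le_iff_ne_zero.2 hN0)]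
  by_cases hnr : Nat.Coprime n c.r
  · have hco : Nat.Coprime n (Pi0 Q) ↔ Nat.Coprime n N := by
      rw [hPi, Nat.coprime_mul_iff_right]
      exact ⟨fun h => h.2, fun h => ⟨Nat.Coprime.coprime_dvd_right hRr hnr, h⟩⟩
    unfold wi
    by_cases hc : Nat.Coprime n N
    · rw [if_pos (hco.2 hc), if_pos hc]
      have hval : (∏ p ∈ S, (p : ℝ) / (p - 1)) =
          ((c.r : ℝ) / (Nat.totient c.r : ℝ)) * ((N : ℝ) / (Nat.totient N : ℝ)) := by
        rw [div_totient_UNT c.r c.hr, div_totient_UNT N hN0, hBf, hN,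
          Nat.primeFactors_prod hAp, hA, hB, Finset.prod_filter_mul_prod_filter_not]
      rw [hval]
      push_cast
      ring
    · rw [if_neg (fun h => hc (hco.1 h)), if_neg hc]
      simp
  · have hev : c.ev n = 0 := by
      unfold PCh.ev
      apply MulChar.map_nonunit
      rw [ZMod.isUnit_iff_coprime]
      exact hnr
    unfold wi
    rw [hev]
    simp

/-- UNT -/
theorem hUnt : Pool.Agent.Helper23.GK.StRam → Pool.Agent.Helper23.MV.StFin → StUnt := by
  intro hRam hFin P Q n c hPQ hc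
  have h1 : (c.r : ℝ) ≤ P := (hFin.1 P c).1 hc
  have hr : c.r ≤ Q := by exact_mod_cast h1.trans hPQ
  exact unt_UNT hr hRam.2.2.2.1

end Pool.Agent.Helper98.PB
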